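import Mathlib

/-! Small-ball inverse Littlewood–Offord theorem in all dimensions (helper135). -/

namespace Pool.Agent.Results.MP_ece343_co.AllDimensions

open MeasureTheory ProbabilityTheory Complex
open scoped RealInnerProductSpace

/-- the sign of a Boolean -/
def sgn (b : Bool) : ℝ := if b then 1 else -1

/-- The probability that `± a₁ ± ⋯ ± aₙ ∈ B` for independent uniform random signs. -/
noncomputable def prob {n d : ℕ} (a : Fin n → EuclideanSpace ℝ (Fin d))
    (B : Set (EuclideanSpace ℝ (Fin d))) : ℝ :=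
  ({x : Fin n → Bool | ∑ i, sgn (x i) • a i ∈ B}.ncard : ℝ) / 2 ^ n

/-! ### One-dimensional sums -/

theorem geo_aux (l : ℝ) (hl : 0 < l) (m : ℕ) : ∀ τ : ℝ,
    (τ ≤ 0 → ∑ k ∈ Finset.range m, Real.exp (-|l * k - τ|) ≤ Real.exp τ / (1 - Real.exp (-l))) ∧
    (0 ≤ τ → ∑ k ∈ Finset.range m, Real.exp (-|l * k - τ|) ≤
      (2 - Real.exp (-l) * Real.exp (-τ)) / (1 - Real.exp (-l))) := by
  have hq1 : Real.exp (-l) < 1 := by
    rw [Real.exp_lt_one_iff]
    linarith
  have hq0 : 0 < Real.exp (-l) := Real.exp_pos _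
  have hd : 0 < 1 - Real.exp (-l) := by linarith
  have shift : ∀ (m : ℕ) (τ : ℝ), ∑ k ∈ Finset.range (m + 1), Real.exp (-|l * k - τ|) =
      Real.exp (-|τ|) + ∑ k ∈ Finset.range m, Real.exp (-|l * k - (τ - l)|) := by
    intro m τ
    rw [Finset.sum_range_succ']
    rw [add_comm]
    congr 1
    · simp
    · apply Finset.sum_congr rfl
      intro k _
      congr 3
      push_cast
      ring
  induction m with
  | zero =>
    intro τ
    constructor
    · intro _
      simp only [Finset.range_zero, Finset.sum_empty]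
      positivity
    · intro hτ
      simp only [Finset.range_zero, Finset.sum_empty]
      apply div_nonneg _ hd.le
      have : Real.exp (-τ) ≤ 1 := by
        rw [Real.exp_le_one_iff]
        linarith
      nlinarith
  | succ m ih =>
    intro τ
    have neg : ∀ τ : ℝ, τ ≤ 0 → ∑ k ∈ Finset.range (m + 1), Real.exp (-|l * k - τ|) ≤
        Real.exp τ / (1 - Real.exp (-l)) := by
      intro τ hτ
      rw [shift, abs_of_nonpos hτ, neg_neg]
      have h1 := (ih (τ - l)).1 (by linarith)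
      have h2 : Real.exp (τ - l) = Real.exp τ * Real.exp (-l) := by
        rw [← Real.exp_add]
        ring_nf
      rw [h2] at h1
      have h3 : Real.exp τ + Real.exp τ * Real.exp (-l) / (1 - Real.exp (-l)) =
          Real.exp τ / (1 - Real.exp (-l)) := by
        field_simp
        ring
      linarith
    refine ⟨neg τ, fun hτ => ?_⟩
    rw [shift, abs_of_nonneg hτ]
    by_cases h : τ ≤ l
    · have h1 := (ih (τ - l)).1 (by linarith)
      have h2 : Real.exp (τ - l) ≤ 1 := by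
        rw [Real.exp_le_one_iff]
        linarith
      have h3 : Real.exp (-τ) ≤ 1 := by
        rw [Real.exp_le_one_iff]
        linarith
      have h4 : Real.exp (-τ) + Real.exp (τ - l) / (1 - Real.exp (-l)) ≤
          (2 - Real.exp (-l) * Real.exp (-τ)) / (1 - Real.exp (-l)) := by
        rw [← sub_nonneg]
        have : (2 - Real.exp (-l) * Real.exp (-τ)) / (1 - Real.exp (-l)) -
            (Real.exp (-τ) + Real.exp (τ - l) / (1 - Real.exp (-l))) =
            (2 - Real.exp (-τ) - Real.exp (τ - l)) / (1 - Real.exp (-l)) := by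
          field_simp
          ring
        rw [this]
        apply div_nonneg _ hd.le
        linarith
      linarith
    · push Not at h
      have h1 := (ih (τ - l)).2 (by linarith)
      have h2 : Real.exp (-l) * Real.exp (-(τ - l)) = Real.exp (-τ) := by
        rw [← Real.exp_add]
        ring_nf
      rw [h2] at h1
      have h4 : Real.exp (-τ) + (2 - Real.exp (-τ)) / (1 - Real.exp (-l)) =
          (2 - Real.exp (-l) * Real.exp (-τ)) / (1 - Real.exp (-l)) := by
        field_simp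
        ring
      linarith

theorem geo_sum (l τ : ℝ) (hl : 0 < l) (m : ℕ) :
    ∑ k ∈ Finset.range m, Real.exp (-|l * k - τ|) ≤ 2 * (1 + 1 / l) := by
  have hq1 : Real.exp (-l) < 1 := by
    rw [Real.exp_lt_one_iff]
    linarith
  have hq0 : 0 < Real.exp (-l) := Real.exp_pos _
  have hd : 0 < 1 - Real.exp (-l) := by linarith
  have h1 : ∑ k ∈ Finset.range m, Real.exp (-|l * k - τ|) ≤ 2 / (1 - Real.exp (-l)) := by
    rcases le_total τ 0 with h | h
    · refine ((geo_aux l hl m τ).1 h).trans ?_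
      apply div_le_div_of_nonneg_right _ hd.le
      have : Real.exp τ ≤ 1 := Real.exp_le_one_iff.2 h
      linarith
    · refine ((geo_aux l hl m τ).2 h).trans ?_
      apply div_le_div_of_nonneg_right _ hd.le
      have : 0 < Real.exp (-l) * Real.exp (-τ) := by positivity
      linarith
  refine h1.trans ?_
  have h2 : Real.exp (-l) ≤ 1 / (1 + l) := by
    rw [Real.exp_neg, ← one_div]
    apply one_div_le_one_div_of_le (by linarith)
    have := Real.add_one_le_exp l
    linarith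
  have h3 : l / (1 + l) ≤ 1 - Real.exp (-l) := by
    have : l / (1 + l) = 1 - 1 / (1 + l) := by
      field_simp
      ring
    rw [this]
    linarith
  have h4 : 2 * (1 + 1 / l) = 2 / (l / (1 + l)) := by
    field_simp
    ring
  rw [h4]
  apply div_le_div_of_nonneg_left (by norm_num) (by positivity) h3

theorem centralBinom_sq (n : ℕ) : (n.centralBinom : ℝ) ^ 2 * (2 * n + 1) ≤ 16 ^ n := by
  induction n with
  | zero => simp
  | succ n ih =>
    have h := Nat.succ_mul_centralBinom_succ n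
    have h' : ((n : ℝ) + 1) * ((n + 1).centralBinom : ℝ) = 2 * (2 * n + 1) * n.centralBinom := by
      exact_mod_cast h
    have h1 : ((n + 1).centralBinom : ℝ) = 2 * (2 * n + 1) * n.centralBinom / (n + 1) := by
      rw [← h']
      field_simp
    rw [h1]
    push_cast
    have h2 : (2 * (2 * (n : ℝ) + 1) * n.centralBinom / (n + 1)) ^ 2 * (2 * (n + 1) + 1) =
        (n.centralBinom : ℝ) ^ 2 * (2 * n + 1) * (4 * (2 * n + 1) * (2 * n + 3) / (n + 1) ^ 2) := by
      field_simp
      ring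
    rw [h2, pow_succ]
    apply mul_le_mul ih _ (by positivity) (by positivity)
    rw [div_le_iff₀ (by positivity)]
    nlinarith

/-- The one-dimensional estimate. -/
theorem one_dim (N : ℕ) (l θ : ℝ) (hl : 0 < l) :
    ∑ k ∈ Finset.range (2 * N + 1), ((2 * N).choose k : ℝ) / 2 ^ (2 * N) *
      Real.exp (-((2 * (k : ℝ) - 2 * N) * l + θ) ^ 2 / 2) ≤
      4 * (1 + 1 / l) / Real.sqrt (2 * N + 1) := by
  have hs : 0 < Real.sqrt (2 * N + 1) := Real.sqrt_pos.2 (by positivity)
  have h1 : ∀ k, ((2 * N).choose k : ℝ) / 2 ^ (2 * N) ≤ 1 / Real.sqrt (2 * N + 1) := by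
    intro k
    have h2 : ((2 * N).choose k : ℝ) ≤ N.centralBinom := by
      exact_mod_cast Nat.choose_le_centralBinom k N
    have h3 := centralBinom_sq N
    have h4 : (N.centralBinom : ℝ) * Real.sqrt (2 * N + 1) ≤ 2 ^ (2 * N) := by
      rw [← sq_le_sq₀ (by positivity) (by positivity), mul_pow, Real.sq_sqrt (by positivity)]
      calc _ ≤ (16 : ℝ) ^ N := h3
        _ = (2 ^ (2 * N)) ^ 2 := by
          rw [← pow_mul, show (16 : ℝ) = 2 ^ 4 by norm_num, ← pow_mul]
          ring_nf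
    rw [div_le_div_iff₀ (by positivity) hs, one_mul]
    exact (mul_le_mul_of_nonneg_right h2 hs.le).trans h4
  have h2 : ∀ k ∈ Finset.range (2 * N + 1), ((2 * N).choose k : ℝ) / 2 ^ (2 * N) *
      Real.exp (-((2 * (k : ℝ) - 2 * N) * l + θ) ^ 2 / 2) ≤
      1 / Real.sqrt (2 * N + 1) * (Real.exp (1 / 2) * Real.exp (-|2 * l * k - (2 * N * l - θ)|)) := by
    intro k _
    apply mul_le_mul (h1 k) _ (Real.exp_pos _).le (by positivity)
    rw [← Real.exp_add]
    apply Real.exp_le_exp.2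
    have h5 : (2 * (k : ℝ) - 2 * N) * l + θ = 2 * l * k - (2 * N * l - θ) := by ring
    rw [h5, ← sq_abs]
    nlinarith [sq_nonneg (|2 * l * (k : ℝ) - (2 * N * l - θ)| - 1)]
  refine (Finset.sum_le_sum h2).trans ?_
  rw [← Finset.mul_sum, ← Finset.mul_sum]
  have h3 := geo_sum (2 * l) (2 * N * l - θ) (by linarith) (2 * N + 1)
  have h4 : Real.exp (1 / 2) ≤ 2 := by
    have h5 : Real.exp (1 / 2) ^ 2 = Real.exp 1 := by
      rw [← Real.exp_nat_mul]
      norm_num
    have h6 := Real.exp_one_lt_d9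
    nlinarith [Real.exp_pos (1 / 2 : ℝ)]
  have h5 : 2 * (1 + 1 / (2 * l)) ≤ 2 * (1 + 1 / l) := by
    have : 1 / (2 * l) ≤ 1 / l := one_div_le_one_div_of_le hl (by linarith)
    linarith
  have h6 : Real.exp (1 / 2) * ∑ k ∈ Finset.range (2 * N + 1),
      Real.exp (-|2 * l * k - (2 * N * l - θ)|) ≤ 2 * (2 * (1 + 1 / l)) :=
    mul_le_mul h4 (h3.trans h5) (Finset.sum_nonneg fun _ _ => (Real.exp_pos _).le) (by norm_num)
  calc _ ≤ 1 / Real.sqrt (2 * N + 1) * (2 * (2 * (1 + 1 / l))) :=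
        mul_le_mul_of_nonneg_left h6 (by positivity)
    _ = _ := by ring


/-! ### Sums over tuples -/

section Tuple

variable {E : Type*} [NormedAddCommGroup E] [InnerProductSpace ℝ E]

/-- Gaussian average over `2 N` copies of the vectors of a list -/
noncomputable def T (N : ℕ) (r : ℝ) : List E → E → ℝ
  | [], u => Real.exp (-‖u‖ ^ 2 / (2 * r ^ 2))
  | b :: l, u => ∑ k ∈ Finset.range (2 * N + 1), ((2 * N).choose k : ℝ) / 2 ^ (2 * N) *
      T N r l (u + (2 * (k : ℝ) - 2 * N) • b)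

/-- each vector is at distance at least `δ` from the span of the later ones -/
def Robust (δ : ℝ) : List E → Prop
  | [] => True
  | b :: l => (∀ w ∈ Submodule.span ℝ {x | x ∈ l}, δ ≤ ‖b - w‖) ∧ Robust δ l

theorem T_orth (N : ℕ) (r : ℝ) (e : E) (he : ‖e‖ = 1) (l : List E)
    (hl : ∀ b ∈ l, ⟪e, b⟫ = 0) : ∀ (u : E) (t : ℝ), ⟪e, u⟫ = 0 →
    T N r l (u + t • e) = Real.exp (-t ^ 2 / (2 * r ^ 2)) * T N r l u := by
  induction l with
  | nil =>
    intro u t hu
    simp only [T]
    rw [← Real.exp_add]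
    congr 1
    have h1 : ‖u + t • e‖ ^ 2 = ‖u‖ ^ 2 + t ^ 2 := by
      rw [norm_add_sq_real, inner_smul_right, real_inner_comm, hu, norm_smul, he]
      simp
    rw [h1]
    ring
  | cons b l ih =>
    intro u t hu
    simp only [T]
    rw [Finset.mul_sum]
    apply Finset.sum_congr rfl
    intro k _
    have hb : ⟪e, b⟫ = 0 := hl b List.mem_cons_self
    have h1 : u + t • e + (2 * (k : ℝ) - 2 * N) • b = (u + (2 * (k : ℝ) - 2 * N) • b) + t • e := by
      abel
    rw [h1, ih (fun b hb => hl b (List.mem_cons_of_mem _ hb)) _ t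
      (by rw [inner_add_right, inner_smul_right, hu, hb]; simp)]
    ring

theorem T_nonneg (N : ℕ) (r : ℝ) (l : List E) : ∀ u, 0 ≤ T N r l u := by
  induction l with
  | nil => intro u; exact (Real.exp_pos _).le
  | cons b l ih =>
    intro u
    exact Finset.sum_nonneg fun k _ => mul_nonneg (by positivity) (ih _)

theorem exists_dir [FiniteDimensional ℝ E] {δ : ℝ} (hδ : 0 < δ) (W : Submodule ℝ E) (b : E)
    (hb : ∀ w ∈ W, δ ≤ ‖b - w‖) : ∃ e : E, ‖e‖ = 1 ∧ (∀ w ∈ W, ⟪e, w⟫ = 0) ∧ δ ≤ ⟪e, b⟫ := by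
  set v := b - W.starProjection b with hv
  have hvW : v ∈ Wᗮ := Submodule.sub_starProjection_mem_orthogonal b
  have hvn : δ ≤ ‖v‖ := hb _ (Submodule.starProjection_apply_mem W b)
  have hv0 : 0 < ‖v‖ := lt_of_lt_of_le hδ hvn
  refine ⟨(‖v‖⁻¹) • v, ?_, ?_, ?_⟩
  · rw [norm_smul, norm_inv, norm_norm]
    exact inv_mul_cancel₀ hv0.ne'
  · intro w hw
    rw [inner_smul_left, (Submodule.mem_orthogonal' W v).1 hvW w hw]
    simp
  · have h1 : v + W.starProjection b = b := by rw [hv]; abel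
    have h2 : ⟪v, W.starProjection b⟫ = 0 :=
      (Submodule.mem_orthogonal' W v).1 hvW _ (Submodule.starProjection_apply_mem W b)
    have h3 : ⟪v, b⟫ = ‖v‖ ^ 2 := by
      calc ⟪v, b⟫ = ⟪v, v + W.starProjection b⟫ := by rw [h1]
        _ = ‖v‖ ^ 2 := by rw [inner_add_right, h2, add_zero, real_inner_self_eq_norm_sq]
    rw [inner_smul_left, h3]
    simp only [map_inv₀, conj_trivial]
    have : ‖v‖⁻¹ * ‖v‖ ^ 2 = ‖v‖ := by
      field_simp
    rw [this]
    exact hvn

theorem T_le [FiniteDimensional ℝ E] (N : ℕ) {r δ : ℝ} (hr : 0 < r) (hδ : 0 < δ) (l : List E) :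
    Robust δ l → ∀ u, T N r l u ≤ (4 * (1 + r / δ) / Real.sqrt (2 * N + 1)) ^ l.length := by
  set κ := 4 * (1 + r / δ) / Real.sqrt (2 * N + 1) with hκ
  have hκ0 : 0 ≤ κ := by positivity
  induction l with
  | nil =>
    intro _ u
    simp only [T, List.length_nil, pow_zero]
    rw [Real.exp_le_one_iff]
    have : 0 ≤ ‖u‖ ^ 2 / (2 * r ^ 2) := by positivity
    rw [neg_div]
    linarith
  | cons b l ih =>
    intro hR u
    obtain ⟨e, he, hel, heb⟩ := exists_dir hδ _ b hR.1
    have hel' : ∀ x ∈ l, ⟪e, x⟫ = 0 := fun x hx => hel x (Submodule.subset_span hx)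
    simp only [T, List.length_cons]
    set lam := ⟪e, b⟫ / r with hlam
    set θ := ⟪e, u⟫ / r with hθ
    have hlam0 : 0 < lam := div_pos (lt_of_lt_of_le hδ heb) hr
    have hterm : ∀ k ∈ Finset.range (2 * N + 1), ((2 * N).choose k : ℝ) / 2 ^ (2 * N) *
        T N r l (u + (2 * (k : ℝ) - 2 * N) • b) ≤ ((2 * N).choose k : ℝ) / 2 ^ (2 * N) *
        Real.exp (-((2 * (k : ℝ) - 2 * N) * lam + θ) ^ 2 / 2) * κ ^ l.length := by
      intro k _
      set y := u + (2 * (k : ℝ) - 2 * N) • b with hy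
      set t := ⟪e, y⟫ with ht
      have h1 : y = (y - t • e) + t • e := by abel
      have h2 : ⟪e, y - t • e⟫ = 0 := by
        rw [inner_sub_right, inner_smul_right, real_inner_self_eq_norm_sq, he]
        simp [ht]
      have h3 : T N r l y = Real.exp (-t ^ 2 / (2 * r ^ 2)) * T N r l (y - t • e) := by
        conv_lhs => rw [h1]
        exact T_orth N r e he l hel' _ t h2
      have h4 : -t ^ 2 / (2 * r ^ 2) = -((2 * (k : ℝ) - 2 * N) * lam + θ) ^ 2 / 2 := by
        have h5 : t = r * ((2 * (k : ℝ) - 2 * N) * lam + θ) := by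
          rw [ht, hy, inner_add_right, inner_smul_right, hlam, hθ]
          field_simp
          ring
        rw [h5]
        field_simp
      rw [h3, h4, mul_assoc]
      apply mul_le_mul_of_nonneg_left _ (by positivity)
      exact mul_le_mul_of_nonneg_left (ih hR.2 _) (Real.exp_pos _).le
    refine (Finset.sum_le_sum hterm).trans ?_
    rw [← Finset.sum_mul, pow_succ, mul_comm]
    apply mul_le_mul_of_nonneg_left _ (by positivity)
    refine (one_dim N lam θ hlam0).trans ?_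
    rw [hκ]
    apply div_le_div_of_nonneg_right _ (Real.sqrt_nonneg _)
    have h6 : 1 / lam ≤ r / δ := by
      rw [hlam, one_div_div]
      exact div_le_div_of_nonneg_left hr.le hδ heb
    linarith

end Tuple


/-! ### The Fourier transform -/

theorem cos_pow (N : ℕ) (α : ℝ) : ((Real.cos α : ℝ) : ℂ) ^ (2 * N) =
    ∑ k ∈ Finset.range (2 * N + 1), (((2 * N).choose k : ℝ) / 2 ^ (2 * N) : ℝ) *
      cexp (((2 * (k : ℝ) - 2 * N) * α : ℝ) * I) := by
  have h1 : ((Real.cos α : ℝ) : ℂ) = (cexp (α * I) + cexp (-α * I)) / 2 := by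
    rw [ofReal_cos, Complex.cos]
  rw [h1, div_pow, add_pow, Finset.sum_div]
  apply Finset.sum_congr rfl
  intro k hk
  have hk' : k ≤ 2 * N := by
    rw [Finset.mem_range] at hk
    omega
  have h2 : cexp (α * I) ^ k * cexp (-α * I) ^ (2 * N - k) =
      cexp (((2 * (k : ℝ) - 2 * N) * α : ℝ) * I) := by
    rw [← Complex.exp_nat_mul, ← Complex.exp_nat_mul, ← Complex.exp_add]
    congr 1
    push_cast [Nat.cast_sub hk']
    ring
  rw [h2]
  push_cast
  ring

section Fourier

variable {d : ℕ}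

abbrev Eu (d : ℕ) := EuclideanSpace ℝ (Fin d)

/-- product of the cosines of a list of vectors -/
noncomputable def P (r : ℝ) (l : List (Eu d)) (g : (Eu d)) : ℝ :=
  (l.map fun b => Real.cos (⟪g, b⟫ / r)).prod

theorem P_abs_le (r : ℝ) (l : List (Eu d)) (g : (Eu d)) : |P r l g| ≤ 1 := by
  induction l with
  | nil => simp [P]
  | cons b l ih =>
    have : P r (b :: l) g = Real.cos (⟪g, b⟫ / r) * P r l g := by simp [P]
    rw [this, abs_mul]
    exact mul_le_one₀ (Real.abs_cos_le_one _) (abs_nonneg _) ih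

theorem P_continuous (r : ℝ) (l : List (Eu d)) : Continuous (P r l) := by
  induction l with
  | nil =>
    have : P r ([] : List (Eu d)) = fun _ => 1 := by
      funext g
      simp [P]
    rw [this]
    exact continuous_const
  | cons b l ih =>
    have : P r (b :: l) = fun g => Real.cos (⟪g, b⟫ / r) * P r l g := by
      funext g
      simp [P]
    rw [this]
    fun_prop

theorem integrable_aux (N : ℕ) (r : ℝ) (l : List (Eu d)) (u : (Eu d)) :
    Integrable (fun g : (Eu d) => cexp ((⟪g, u⟫ / r : ℝ) * I) * ((P r l g : ℝ) : ℂ) ^ (2 * N))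
      (stdGaussian (Eu d)) := by
  refine Integrable.of_bound (C := 1) ?_ ?_
  · apply Continuous.aestronglyMeasurable
    have := P_continuous r l
    fun_prop
  · refine Filter.Eventually.of_forall fun g => ?_
    rw [norm_mul, Complex.norm_exp_ofReal_mul_I, one_mul, norm_pow, Complex.norm_real]
    exact pow_le_one₀ (norm_nonneg _) (P_abs_le r l g)

theorem fourier (N : ℕ) {r : ℝ} (hr : 0 < r) (l : List (Eu d)) : ∀ u : (Eu d),
    ∫ g : (Eu d), cexp ((⟪g, u⟫ / r : ℝ) * I) * ((P r l g : ℝ) : ℂ) ^ (2 * N) ∂(stdGaussian (Eu d)) =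
      ((T N r l u : ℝ) : ℂ) := by
  induction l with
  | nil =>
    intro u
    have h1 := charFun_stdGaussian (r⁻¹ • u)
    rw [charFun_apply] at h1
    have h2 : ∀ g : (Eu d), cexp ((⟪g, u⟫ / r : ℝ) * I) * ((P r ([] : List (Eu d)) g : ℝ) : ℂ) ^ (2 * N) =
        cexp ((⟪g, r⁻¹ • u⟫ : ℝ) * I) := by
      intro g
      rw [inner_smul_right]
      simp only [P, List.map_nil, List.prod_nil, ofReal_one, one_pow, mul_one]
      congr 3
      ring
    simp_rw [h2]
    rw [h1]
    simp only [T]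
    rw [norm_smul, norm_inv, Real.norm_of_nonneg hr.le]
    push_cast
    congr 1
    field_simp
  | cons b l ih =>
    intro u
    have h1 : ∀ g : (Eu d), cexp ((⟪g, u⟫ / r : ℝ) * I) * ((P r (b :: l) g : ℝ) : ℂ) ^ (2 * N) =
        ∑ k ∈ Finset.range (2 * N + 1), (((2 * N).choose k : ℝ) / 2 ^ (2 * N) : ℝ) *
          (cexp ((⟪g, u + (2 * (k : ℝ) - 2 * N) • b⟫ / r : ℝ) * I) *
            ((P r l g : ℝ) : ℂ) ^ (2 * N)) := by
      intro g
      have h2 : P r (b :: l) g = Real.cos (⟪g, b⟫ / r) * P r l g := by simp [P]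
      rw [h2, ofReal_mul, mul_pow, cos_pow, Finset.sum_mul, Finset.mul_sum]
      apply Finset.sum_congr rfl
      intro k _
      have h3 : cexp ((⟪g, u + (2 * (k : ℝ) - 2 * N) • b⟫ / r : ℝ) * I) =
          cexp ((⟪g, u⟫ / r : ℝ) * I) * cexp (((2 * (k : ℝ) - 2 * N) * (⟪g, b⟫ / r) : ℝ) * I) := by
        rw [← Complex.exp_add, inner_add_right, inner_smul_right]
        congr 1
        push_cast
        ring
      rw [h3]
      ring
    simp_rw [h1]
    rw [integral_finsetSum _ fun k _ => (integrable_aux N r l _).const_mul _]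
    simp only [T]
    rw [ofReal_sum]
    apply Finset.sum_congr rfl
    intro k _
    rw [integral_const_mul, ih, ofReal_mul]

end Fourier


/-! ### The comparison inequality -/

theorem sum_signs {n : ℕ} (α : Fin n → ℝ) :
    ∑ x : Fin n → Bool, cexp (((∑ i, sgn (x i) * α i : ℝ)) * I) =
      ((2 ^ n * ∏ i, Real.cos (α i) : ℝ) : ℂ) := by
  have h1 : ∀ x : Fin n → Bool, cexp (((∑ i, sgn (x i) * α i : ℝ)) * I) =
      ∏ i, cexp ((sgn (x i) * α i : ℝ) * I) := by
    intro x
    rw [← Complex.exp_sum, ofReal_sum, Finset.sum_mul]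
  simp_rw [h1]
  have h2 := (Finset.prod_univ_sum (fun _ : Fin n => (Finset.univ : Finset Bool))
    (fun i b => cexp ((sgn b * α i : ℝ) * I)))
  rw [Fintype.piFinset_univ] at h2
  rw [← h2]
  have h3 : ∀ i, ∑ b : Bool, cexp ((sgn b * α i : ℝ) * I) = ((2 * Real.cos (α i) : ℝ) : ℂ) := by
    intro i
    have t : sgn true = 1 := by simp [sgn]
    have f : sgn false = -1 := by simp [sgn]
    rw [Fintype.sum_bool, t, f, one_mul, neg_one_mul]
    push_cast
    rw [Complex.cos]
    ring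
  simp_rw [h3]
  rw [← ofReal_prod, Finset.prod_mul_distrib, Finset.prod_const, Finset.card_univ, Fintype.card_fin]

theorem am_gm (m : ℕ) (hm : 0 < m) (y : Fin m → ℝ) (hy : ∀ t, 0 ≤ y t) :
    ∏ t, y t ≤ (∑ t, y t ^ m) / m := by
  have hm' : (0 : ℝ) < m := by exact_mod_cast hm
  have h := Real.geom_mean_le_arith_mean_weighted Finset.univ (fun _ : Fin m => (1 : ℝ) / m)
    (fun t => y t ^ m) (fun _ _ => by positivity)
    (by rw [Finset.sum_const, Finset.card_univ, Fintype.card_fin, nsmul_eq_mul]; field_simp)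
    (fun t _ => pow_nonneg (hy t) m)
  have h1 : ∀ t, (y t ^ m) ^ ((1 : ℝ) / m) = y t := by
    intro t
    rw [one_div, ← Real.rpow_natCast, ← Real.rpow_mul (hy t), mul_inv_cancel₀ hm'.ne', Real.rpow_one]
  simp_rw [h1] at h
  refine h.trans (le_of_eq ?_)
  rw [← Finset.mul_sum]
  ring

/-- product over a union of disjoint lists -/
theorem prod_le_lists {n : ℕ} (f : Fin n → ℝ) (hf0 : ∀ i, 0 ≤ f i) (hf1 : ∀ i, f i ≤ 1)
    (L : List (List (Fin n))) (hL : L.flatten.Nodup) :
    ∏ i, f i ≤ (L.map fun l => (l.map f).prod).prod := by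
  have h1 : (L.map fun l => (l.map f).prod).prod = (L.flatten.map f).prod := by
    rw [List.map_flatten, List.prod_flatten, List.map_map]
    rfl
  have h2 : (L.flatten.map f).prod = ∏ i ∈ L.flatten.toFinset, f i := by
    rw [List.prod_toFinset _ hL]
  rw [h1, h2, ← Finset.prod_mul_prod_compl L.flatten.toFinset f]
  calc _ ≤ (∏ i ∈ L.flatten.toFinset, f i) * 1 := by
        apply mul_le_mul_of_nonneg_left _ (Finset.prod_nonneg fun i _ => hf0 i)
        exact Finset.prod_le_one (fun i _ => hf0 i) (fun i _ => hf1 i)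
    _ = _ := mul_one _

theorem indicator_le {n d : ℕ} (a : Fin n → EuclideanSpace ℝ (Fin d))
    (c : EuclideanSpace ℝ (Fin d)) {r : ℝ} (hr : 0 < r) :
    ({x : Fin n → Bool | ∑ i, sgn (x i) • a i ∈ Metric.closedBall c r}.ncard : ℝ) ≤
      Real.exp (1 / 2) * ∑ x : Fin n → Bool, T 0 r [] (∑ i, sgn (x i) • a i - c) := by
  classical
  rw [Set.ncard_eq_toFinset_card', Finset.mul_sum]
  have h0 : ∀ x ∈ ({x : Fin n → Bool | ∑ i, sgn (x i) • a i ∈ Metric.closedBall c r}).toFinset,
      (1 : ℝ) ≤ Real.exp (1 / 2) * T 0 r [] (∑ i, sgn (x i) • a i - c) := by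
    intro x hx
    rw [Set.mem_toFinset, Set.mem_ofPred_eq, Metric.mem_closedBall, dist_eq_norm] at hx
    simp only [T]
    rw [← Real.exp_add]
    apply Real.one_le_exp
    have h2 : ‖∑ i, sgn (x i) • a i - c‖ ^ 2 ≤ r ^ 2 := pow_le_pow_left₀ (norm_nonneg _) hx 2
    have h3 : ‖∑ i, sgn (x i) • a i - c‖ ^ 2 / (2 * r ^ 2) ≤ 1 / 2 := by
      rw [div_le_iff₀ (by positivity)]
      linarith
    rw [neg_div]
    linarith
  have h1 := Finset.card_nsmul_le_sum _ _ 1 h0
  rw [nsmul_eq_mul, mul_one] at h1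
  refine h1.trans ?_
  apply Finset.sum_le_sum_of_subset_of_nonneg (Finset.subset_univ _)
  intro x _ _
  exact mul_nonneg (Real.exp_pos _).le (T_nonneg _ _ _ _)

theorem sum_T {n d : ℕ} (a : Fin n → EuclideanSpace ℝ (Fin d))
    (c : EuclideanSpace ℝ (Fin d)) {r : ℝ} (hr : 0 < r) :
    ((∑ x : Fin n → Bool, T 0 r [] (∑ i, sgn (x i) • a i - c) : ℝ) : ℂ) =
      ∫ g : EuclideanSpace ℝ (Fin d), cexp ((-(⟪g, c⟫ / r) : ℝ) * I) *
        ((2 ^ n * ∏ i, Real.cos (⟪g, a i⟫ / r) : ℝ) : ℂ)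
          ∂(stdGaussian (EuclideanSpace ℝ (Fin d))) := by
  rw [ofReal_sum]
  have h3 : ∀ x : Fin n → Bool, ((T 0 r [] (∑ i, sgn (x i) • a i - c) : ℝ) : ℂ) =
      ∫ g : EuclideanSpace ℝ (Fin d), cexp ((⟪g, ∑ i, sgn (x i) • a i - c⟫ / r : ℝ) * I) *
        ((P r [] g : ℝ) : ℂ) ^ (2 * 0) ∂(stdGaussian (EuclideanSpace ℝ (Fin d))) :=
    fun x => (fourier 0 hr [] _).symm
  simp_rw [h3]
  rw [← integral_finsetSum _ fun x _ => integrable_aux 0 r [] _]
  apply integral_congr_ae
  refine Filter.Eventually.of_forall fun g => ?_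
  simp only [mul_zero, pow_zero, mul_one]
  rw [← sum_signs, Finset.mul_sum]
  apply Finset.sum_congr rfl
  intro x _
  rw [← Complex.exp_add, ← add_mul, ← ofReal_add]
  have h4 : ⟪g, ∑ i, sgn (x i) • a i - c⟫ / r =
      -(⟪g, c⟫ / r) + ∑ i, sgn (x i) * (⟪g, a i⟫ / r) := by
    rw [inner_sub_right, inner_sum, sub_div, Finset.sum_div]
    simp_rw [inner_smul_right, mul_div_assoc]
    ring
  rw [h4]

theorem sum_T_le {n d : ℕ} (a : Fin n → EuclideanSpace ℝ (Fin d))
    (c : EuclideanSpace ℝ (Fin d)) {r : ℝ} (hr : 0 < r) :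
    (∑ x : Fin n → Bool, T 0 r [] (∑ i, sgn (x i) • a i - c)) ≤
      2 ^ n * ∫ g : EuclideanSpace ℝ (Fin d), ∏ i, |Real.cos (⟪g, a i⟫ / r)|
        ∂(stdGaussian (EuclideanSpace ℝ (Fin d))) := by
  have h4 : (∑ x : Fin n → Bool, T 0 r [] (∑ i, sgn (x i) • a i - c)) =
      ‖((∑ x : Fin n → Bool, T 0 r [] (∑ i, sgn (x i) • a i - c) : ℝ) : ℂ)‖ := by
    rw [Complex.norm_real, Real.norm_of_nonneg]
    exact Finset.sum_nonneg fun x _ => T_nonneg _ _ _ _
  rw [h4, sum_T a c hr, ← integral_const_mul]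
  refine (norm_integral_le_integral_norm _).trans (le_of_eq ?_)
  apply integral_congr_ae
  refine Filter.Eventually.of_forall fun g => ?_
  simp only
  rw [norm_mul, Complex.norm_exp_ofReal_mul_I, one_mul, Complex.norm_real, norm_mul,
    Real.norm_of_nonneg (by positivity), Real.norm_eq_abs, Finset.abs_prod]

theorem P_map_abs {n d : ℕ} (a : Fin n → EuclideanSpace ℝ (Fin d)) (r : ℝ)
    (g : EuclideanSpace ℝ (Fin d)) (l : List (Fin n)) :
    (l.map fun i => |Real.cos (⟪g, a i⟫ / r)|).prod = |P r (l.map a) g| := by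
  induction l with
  | nil => simp [P]
  | cons b l ih =>
    have : P r ((b :: l).map a) g = Real.cos (⟪g, a b⟫ / r) * P r (l.map a) g := by simp [P]
    rw [this, abs_mul, ← ih]
    simp

theorem integrable_P {d : ℕ} (N : ℕ) (r : ℝ) (l : List (EuclideanSpace ℝ (Fin d))) :
    Integrable (fun g => P r l g ^ (2 * N)) (stdGaussian (EuclideanSpace ℝ (Fin d))) := by
  refine Integrable.of_bound (C := 1) ?_ ?_
  · apply Continuous.aestronglyMeasurable
    have := P_continuous r l
    fun_prop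
  · refine Filter.Eventually.of_forall fun g => ?_
    rw [norm_pow, Real.norm_eq_abs]
    exact pow_le_one₀ (abs_nonneg _) (P_abs_le r l g)

theorem integral_P {d : ℕ} (N : ℕ) {r : ℝ} (hr : 0 < r) (l : List (EuclideanSpace ℝ (Fin d))) :
    ∫ g, P r l g ^ (2 * N) ∂(stdGaussian (EuclideanSpace ℝ (Fin d))) = T N r l 0 := by
  have h := fourier N hr l 0
  have h' : ∫ g, (((P r l g ^ (2 * N) : ℝ)) : ℂ) ∂(stdGaussian (EuclideanSpace ℝ (Fin d))) =
      ((T N r l 0 : ℝ) : ℂ) := by
    rw [← h]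
    apply integral_congr_ae
    refine Filter.Eventually.of_forall fun g => ?_
    simp
  have h'' := (integral_complex_ofReal (μ := stdGaussian (EuclideanSpace ℝ (Fin d)))
    (f := fun g => P r l g ^ (2 * N))).symm.trans h'
  exact_mod_cast h''

theorem prod_cos_le {n d : ℕ} (a : Fin n → EuclideanSpace ℝ (Fin d)) (r : ℝ) (N : ℕ) (hN : 0 < N)
    (L : List (List (Fin n))) (hLl : L.length = 2 * N) (hLn : L.flatten.Nodup)
    (g : EuclideanSpace ℝ (Fin d)) : ∏ i, |Real.cos (⟪g, a i⟫ / r)| ≤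
      (∑ t : Fin (2 * N), P r ((L[t.val]'(by rw [hLl]; exact t.isLt)).map a) g ^ (2 * N)) /
        (2 * N : ℕ) := by
  refine (prod_le_lists (fun i => |Real.cos (⟪g, a i⟫ / r)|) (fun i => abs_nonneg _)
    (fun i => Real.abs_cos_le_one _) L hLn).trans ?_
  have h6 : (L.map fun l => (l.map fun i => |Real.cos (⟪g, a i⟫ / r)|).prod).prod =
      ∏ t : Fin (2 * N), |P r ((L[t.val]'(by rw [hLl]; exact t.isLt)).map a) g| := by
    simp_rw [P_map_abs]
    rw [← List.prod_ofFn]
    congr 1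
    apply List.ext_getElem
    · simp [hLl]
    · intro i h8 h9
      simp
  rw [h6]
  refine (am_gm (2 * N) (by omega) _ fun t => abs_nonneg _).trans (le_of_eq ?_)
  congr 1
  apply Finset.sum_congr rfl
  intro t _
  rw [pow_mul, sq_abs, ← pow_mul]

theorem prob_le {n d : ℕ} (a : Fin n → EuclideanSpace ℝ (Fin d)) (c : EuclideanSpace ℝ (Fin d))
    {r : ℝ} (hr : 0 < r) (N : ℕ) (hN : 0 < N) (L : List (List (Fin n))) (hLl : L.length = 2 * N)
    (hLn : L.flatten.Nodup) (κ : ℝ) (hκ : ∀ l ∈ L, T N r (l.map a) 0 ≤ κ) :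
    prob a (Metric.closedBall c r) ≤ Real.exp (1 / 2) * κ := by
  rw [prob, div_le_iff₀ (by positivity)]
  refine (indicator_le a c hr).trans ?_
  rw [mul_assoc]
  apply mul_le_mul_of_nonneg_left _ (Real.exp_pos _).le
  refine (sum_T_le a c hr).trans ?_
  rw [mul_comm]
  apply mul_le_mul_of_nonneg_right _ (by positivity)
  have hint' : Integrable (fun g : EuclideanSpace ℝ (Fin d) =>
      (∑ t : Fin (2 * N), P r ((L[t.val]'(by rw [hLl]; exact t.isLt)).map a) g ^ (2 * N)) /
        (2 * N : ℕ)) (stdGaussian (EuclideanSpace ℝ (Fin d))) :=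
    (integrable_finsetSum _ fun t _ => integrable_P N r _).div_const _
  have hint'' : Integrable (fun g : EuclideanSpace ℝ (Fin d) => ∏ i, |Real.cos (⟪g, a i⟫ / r)|)
      (stdGaussian (EuclideanSpace ℝ (Fin d))) := by
    refine Integrable.of_bound (C := 1) ?_ ?_
    · apply Continuous.aestronglyMeasurable
      fun_prop
    · refine Filter.Eventually.of_forall fun g => ?_
      rw [Real.norm_of_nonneg (Finset.prod_nonneg fun i _ => abs_nonneg _)]
      exact Finset.prod_le_one (fun i _ => abs_nonneg _) fun i _ => Real.abs_cos_le_one _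
  refine (integral_mono hint'' hint' (prod_cos_le a r N hN L hLl hLn)).trans ?_
  rw [integral_div, integral_finsetSum _ fun t _ => integrable_P N r _]
  simp_rw [integral_P N hr]
  rw [div_le_iff₀ (by positivity)]
  calc ∑ t : Fin (2 * N), T N r ((L[t.val]'(by rw [hLl]; exact t.isLt)).map a) 0 ≤
        ∑ t : Fin (2 * N), κ :=
        Finset.sum_le_sum fun t _ => hκ _ (List.getElem_mem _)
    _ = κ * (2 * N : ℕ) := by
      rw [Finset.sum_const, Finset.card_univ, Fintype.card_fin, nsmul_eq_mul, mul_comm]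

/-! ### Greedy selection -/

theorem exists_list {n d : ℕ} (a : Fin n → EuclideanSpace ℝ (Fin d)) (δ : ℝ) (K : ℕ) (q : ℝ)
    (H : ∀ S : Submodule ℝ (EuclideanSpace ℝ (Fin d)), Module.finrank ℝ S ≤ K →
      q < ({i | δ < Metric.infDist (a i) S}.ncard : ℝ)) (U : List (Fin n)) (hU : U.Nodup) (j : ℕ) :
    j ≤ K + 1 → (U.length : ℝ) + j ≤ q →
      ∃ l : List (Fin n), l.length = j ∧ (l ++ U).Nodup ∧ Robust δ (l.map a) := by
  classical
  induction j with
  | zero =>
    intro _ _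
    exact ⟨[], rfl, by simpa using hU, trivial⟩
  | succ j ih =>
    intro hj hq
    push_cast at hq
    obtain ⟨l, hl, hn, hR⟩ := ih (by omega) (by linarith)
    set S := Submodule.span ℝ {x | x ∈ l.map a} with hS
    have h1 : Module.finrank ℝ S ≤ K := by
      have h2 : {x | x ∈ l.map a} = (((l.map a).toFinset : Finset _) : Set _) := by
        ext x
        simp
      have h3 : Module.finrank ℝ S ≤ (l.map a).toFinset.card := by
        rw [hS, h2]
        exact finrank_span_finset_le_card _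
      have h4 := (l.map a).toFinset_card_le
      rw [List.length_map, hl] at h4
      omega
    have h2 := H S h1
    have h3 : ∃ i, i ∉ l ++ U ∧ δ < Metric.infDist (a i) S := by
      by_contra hcon
      push Not at hcon
      have h4 : {i | δ < Metric.infDist (a i) S} ⊆ (((l ++ U).toFinset : Finset _) : Set _) := by
        intro i hi
        by_contra h5
        have h6 : i ∉ l ++ U := by simpa using h5
        exact absurd hi (not_lt.2 (hcon i h6))
      have h5 := Set.ncard_le_ncard h4 (Finset.finite_toSet _)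
      rw [Set.ncard_coe_finset] at h5
      have h6 := (l ++ U).toFinset_card_le
      rw [List.length_append, hl] at h6
      have h7 : (({i | δ < Metric.infDist (a i) S}.ncard : ℕ) : ℝ) ≤ ((j + U.length : ℕ) : ℝ) := by
        exact_mod_cast h5.trans h6
      push_cast at h7
      linarith
    obtain ⟨i, hi, hd⟩ := h3
    refine ⟨i :: l, by simp [hl], ?_, ?_⟩
    · rw [List.cons_append, List.nodup_cons]
      exact ⟨hi, hn⟩
    · rw [List.map_cons]
      refine ⟨fun w hw => ?_, hR⟩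
      have h4 : Metric.infDist (a i) S ≤ dist (a i) w := Metric.infDist_le_dist_of_mem hw
      rw [dist_eq_norm] at h4
      linarith

theorem exists_lists {n d : ℕ} (a : Fin n → EuclideanSpace ℝ (Fin d)) (δ : ℝ) (K : ℕ) (q : ℝ)
    (H : ∀ S : Submodule ℝ (EuclideanSpace ℝ (Fin d)), Module.finrank ℝ S ≤ K →
      q < ({i | δ < Metric.infDist (a i) S}.ncard : ℝ)) (D : ℕ) (hD : D ≤ K + 1) (M : ℕ) :
    (M : ℝ) * D ≤ q → ∃ L : List (List (Fin n)), L.length = M ∧ L.flatten.Nodup ∧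
      L.flatten.length = M * D ∧ ∀ l ∈ L, l.length = D ∧ Robust δ (l.map a) := by
  induction M with
  | zero =>
    intro _
    exact ⟨[], rfl, by simp, by simp, by simp⟩
  | succ M ih =>
    intro hq
    push_cast at hq
    have hD0 : (0 : ℝ) ≤ D := Nat.cast_nonneg D
    obtain ⟨L, hL, hn, hlen, hall⟩ := ih (by nlinarith)
    obtain ⟨l, hl, hln, hR⟩ := exists_list a δ K q H L.flatten hn D hD (by
      rw [hlen]
      push_cast
      linarith)
    refine ⟨l :: L, by simp [hL], by simpa using hln, ?_, ?_⟩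
    · rw [List.flatten_cons, List.length_append, hlen, hl]
      ring
    · intro l' hl'
      rcases List.mem_cons.1 hl' with rfl | h
      · exact ⟨hl, hR⟩
      · exact hall _ h

/-! ### The theorem -/

theorem large {ε C : ℝ} (D : ℕ) (hD : 0 < D)
    (hDC : C + 1 ≤ min ε (1 - ε) / 2 * D) (n : ℕ) (hn : 1 ≤ n)
    (hnD : 2 * (D : ℝ) ≤ (n : ℝ) ^ ε)
    (hnA : Real.exp (1 / 2) * (8 * Real.sqrt (2 * D)) ^ D < n) (K : ℕ) (hK : D ≤ K + 1) (d : ℕ)
    (c : EuclideanSpace ℝ (Fin d)) (a : Fin n → EuclideanSpace ℝ (Fin d))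
    (hp : (n : ℝ) ^ (-C) ≤ prob a (Metric.closedBall c (1 / Real.sqrt n))) :
    ∃ S : Submodule ℝ (EuclideanSpace ℝ (Fin d)), Module.finrank ℝ S ≤ K ∧
      ({i | (n : ℝ) ^ (-ε) < Metric.infDist (a i) S}.ncard : ℝ) ≤ (n : ℝ) ^ ε := by
  by_contra hcon
  push Not at hcon
  have hn0 : (0 : ℝ) < n := by exact_mod_cast hn
  have hn1 : (1 : ℝ) ≤ n := by exact_mod_cast hn
  have hD0 : (0 : ℝ) < D := by exact_mod_cast hD
  set γ := min ε (1 - ε) / 2 with hγ
  have hγ1 : γ ≤ ε / 2 := by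
    have := min_le_left ε (1 - ε)
    linarith
  have hγ2 : γ ≤ (1 - ε) / 2 := by
    have := min_le_right ε (1 - ε)
    linarith
  set N := ⌊(n : ℝ) ^ ε / (2 * D)⌋₊ with hN
  have hx1 : 1 ≤ (n : ℝ) ^ ε / (2 * D) := by
    rw [le_div_iff₀ (by positivity)]
    linarith
  have hN0 : 0 < N := Nat.floor_pos.2 hx1
  have hN1 : (N : ℝ) ≤ (n : ℝ) ^ ε / (2 * D) := Nat.floor_le (by positivity)
  have hN2 : (n : ℝ) ^ ε / (2 * D) < N + 1 := Nat.lt_floor_add_one _
  obtain ⟨L, hL, hLn, -, hLall⟩ := exists_lists a ((n : ℝ) ^ (-ε)) K ((n : ℝ) ^ ε) hcon D hK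
    (2 * N) (by
      rw [le_div_iff₀ (by positivity)] at hN1
      push_cast
      linarith)
  have hr : 0 < 1 / Real.sqrt n := by positivity
  have hδ : 0 < (n : ℝ) ^ (-ε) := by positivity
  have hmain := prob_le a c hr N hN0 L hL hLn
    ((4 * (1 + (1 / Real.sqrt n) / (n : ℝ) ^ (-ε)) / Real.sqrt (2 * N + 1)) ^ D) (by
      intro l hl
      obtain ⟨h1, h2⟩ := hLall l hl
      have := T_le N hr hδ (l.map a) h2 0
      rwa [List.length_map, h1] at this)
  -- simplify the bound
  have hratio : (1 / Real.sqrt n) / (n : ℝ) ^ (-ε) = (n : ℝ) ^ (ε - 1 / 2) := by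
    rw [Real.sqrt_eq_rpow, one_div, ← Real.rpow_neg hn0.le, ← Real.rpow_sub hn0]
    congr 1
    ring
  have hsqrt : (n : ℝ) ^ (ε / 2) / Real.sqrt (2 * D) ≤ Real.sqrt (2 * N + 1) := by
    have h1 : Real.sqrt ((n : ℝ) ^ ε / (2 * D)) ≤ Real.sqrt (2 * N + 1) := by
      apply Real.sqrt_le_sqrt
      have : (0 : ℝ) ≤ N := Nat.cast_nonneg N
      linarith
    rw [Real.sqrt_div (by positivity)] at h1
    have h2 : Real.sqrt ((n : ℝ) ^ ε) = (n : ℝ) ^ (ε / 2) := by
      rw [Real.sqrt_eq_rpow, ← Real.rpow_mul hn0.le]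
      congr 1
      ring
    rwa [h2] at h1
  have hκ : 4 * (1 + (1 / Real.sqrt n) / (n : ℝ) ^ (-ε)) / Real.sqrt (2 * N + 1) ≤
      8 * Real.sqrt (2 * D) * (n : ℝ) ^ (-γ) := by
    rw [hratio]
    have hs : 0 < (n : ℝ) ^ (ε / 2) / Real.sqrt (2 * D) := by positivity
    have h1 : 4 * (1 + (n : ℝ) ^ (ε - 1 / 2)) / Real.sqrt (2 * N + 1) ≤
        4 * (1 + (n : ℝ) ^ (ε - 1 / 2)) / ((n : ℝ) ^ (ε / 2) / Real.sqrt (2 * D)) :=
      div_le_div_of_nonneg_left (by positivity) hs hsqrt
    refine h1.trans ?_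
    have h2 : 4 * (1 + (n : ℝ) ^ (ε - 1 / 2)) / ((n : ℝ) ^ (ε / 2) / Real.sqrt (2 * D)) =
        4 * Real.sqrt (2 * D) * ((n : ℝ) ^ (-(ε / 2)) + (n : ℝ) ^ (-((1 - ε) / 2))) := by
      have h3 : (n : ℝ) ^ (-(ε / 2)) = 1 / (n : ℝ) ^ (ε / 2) := by
        rw [Real.rpow_neg hn0.le, one_div]
      have h4 : (n : ℝ) ^ (-((1 - ε) / 2)) = (n : ℝ) ^ (ε - 1 / 2) / (n : ℝ) ^ (ε / 2) := by
        rw [← Real.rpow_sub hn0]
        congr 1
        ring
      rw [h3, h4]
      field_simp
    rw [h2]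
    have h5 : (n : ℝ) ^ (-(ε / 2)) ≤ (n : ℝ) ^ (-γ) :=
      Real.rpow_le_rpow_of_exponent_le hn1 (by linarith)
    have h6 : (n : ℝ) ^ (-((1 - ε) / 2)) ≤ (n : ℝ) ^ (-γ) :=
      Real.rpow_le_rpow_of_exponent_le hn1 (by linarith)
    calc 4 * Real.sqrt (2 * D) * ((n : ℝ) ^ (-(ε / 2)) + (n : ℝ) ^ (-((1 - ε) / 2))) ≤
          4 * Real.sqrt (2 * D) * ((n : ℝ) ^ (-γ) + (n : ℝ) ^ (-γ)) := by
          apply mul_le_mul_of_nonneg_left _ (by positivity)
          linarith
      _ = _ := by ring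
  have hpow : (4 * (1 + (1 / Real.sqrt n) / (n : ℝ) ^ (-ε)) / Real.sqrt (2 * N + 1)) ^ D ≤
      (8 * Real.sqrt (2 * D)) ^ D * (n : ℝ) ^ (-(C + 1)) := by
    refine (pow_le_pow_left₀ (by positivity) hκ D).trans ?_
    rw [mul_pow]
    apply mul_le_mul_of_nonneg_left _ (by positivity)
    rw [← Real.rpow_natCast, ← Real.rpow_mul hn0.le]
    apply Real.rpow_le_rpow_of_exponent_le hn1
    linarith
  have hfin : (n : ℝ) ^ (-C) ≤ Real.exp (1 / 2) *
      ((8 * Real.sqrt (2 * D)) ^ D * (n : ℝ) ^ (-(C + 1))) :=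
    hp.trans (hmain.trans (mul_le_mul_of_nonneg_left hpow (Real.exp_pos _).le))
  have h7 : (n : ℝ) ^ (-C) = n * (n : ℝ) ^ (-(C + 1)) := by
    have h8 : (n : ℝ) ^ (-C) = (n : ℝ) ^ ((1 : ℝ) + (-(C + 1))) := by
      congr 1
      ring
    rw [h8, Real.rpow_add hn0, Real.rpow_one]
  rw [h7, ← mul_assoc] at hfin
  have h9 : (0 : ℝ) < (n : ℝ) ^ (-(C + 1)) := by positivity
  have := le_of_mul_le_mul_right hfin h9
  linarith

theorem result : ∀ ε : ℝ, 0 < ε → ε < 1 → ∀ C : ℝ, 0 < C → ∃ K : ℕ, ∀ n : ℕ, 2 ≤ n → ∀ d : ℕ,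
    ∀ (c : EuclideanSpace ℝ (Fin d)) (a : Fin n → EuclideanSpace ℝ (Fin d)),
      (n : ℝ) ^ (-C) ≤ prob a (Metric.closedBall c (1 / Real.sqrt n)) →
        ∃ S : Submodule ℝ (EuclideanSpace ℝ (Fin d)), Module.finrank ℝ S ≤ K ∧
          ({i | (n : ℝ) ^ (-ε) < Metric.infDist (a i) S}.ncard : ℝ) ≤ (n : ℝ) ^ ε := by
  intro ε hε hε1 C hC
  have hγ : 0 < min ε (1 - ε) / 2 := by
    have : 0 < min ε (1 - ε) := lt_min hε (by linarith)
    linarith
  set γ := min ε (1 - ε) / 2 with hγd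
  set D := ⌈(C + 1) / γ⌉₊ + 1 with hD
  have hDC : C + 1 ≤ γ * D := by
    have h1 : (C + 1) / γ ≤ ⌈(C + 1) / γ⌉₊ := Nat.le_ceil _
    have h2 : (C + 1) / γ ≤ (D : ℝ) := by
      rw [hD]
      push_cast
      linarith
    rw [div_le_iff₀ hγ] at h2
    linarith
  set A := Real.exp (1 / 2) * (8 * Real.sqrt (2 * D)) ^ D with hA
  set B := (2 * (D : ℝ)) ^ (1 / ε) with hB
  set n₀ := ⌈max A B⌉₊ + 1 with hn₀
  refine ⟨D + n₀, fun n hn d c a hp => ?_⟩
  by_cases hbig : n₀ ≤ n
  · have h1 : max A B ≤ ⌈max A B⌉₊ := Nat.le_ceil _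
    have h2 : ((⌈max A B⌉₊ : ℕ) : ℝ) + 1 ≤ n := by exact_mod_cast hbig
    have h3 : A < n := by
      have := le_max_left A B
      linarith
    have h4 : B ≤ n := by
      have := le_max_right A B
      linarith
    refine large D (by omega) hDC n (by omega) ?_ h3 (D + n₀) (by omega) d c a hp
    have h5 : B ^ ε = 2 * (D : ℝ) := by
      rw [hB, ← Real.rpow_mul (by positivity), one_div, inv_mul_cancel₀ hε.ne', Real.rpow_one]
    rw [← h5]
    exact Real.rpow_le_rpow (by positivity) h4 hε.le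
  · push Not at hbig
    refine ⟨Submodule.span ℝ (Set.range a), ?_, ?_⟩
    · have h1 := finrank_range_le_card (R := ℝ) a
      rw [Fintype.card_fin] at h1
      have h2 : Module.finrank ℝ (Submodule.span ℝ (Set.range a)) ≤ n := h1
      omega
    · have h1 : {i | (n : ℝ) ^ (-ε) < Metric.infDist (a i)
          (Submodule.span ℝ (Set.range a) : Set (EuclideanSpace ℝ (Fin d)))} = ∅ := by
        ext i
        simp only [Set.mem_ofPred_eq, Set.mem_empty_iff_false, iff_false, not_lt]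
        have h2 : a i ∈ (Submodule.span ℝ (Set.range a) : Set (EuclideanSpace ℝ (Fin d))) :=
          Submodule.subset_span ⟨i, rfl⟩
        rw [Metric.infDist_zero_of_mem h2]
        positivity
      rw [h1]
      simp only [Set.ncard_empty, Nat.cast_zero]
      positivity

end Pool.Agent.Results.MP_ece343_co.AllDimensions
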